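import Mathlib
import Pool.Agent.H39.Res2

set_option autoImplicit false

namespace Pool.Agent.Results.MP_155eb7_gt.PowerCounter

open TopologicalSpace

/-- The power of the real line with continuum many factors has an irresolvable base. -/
theorem result : ∃ ι : Type, Cardinal.mk ι = Cardinal.continuum ∧
    ∃ B : Set (Set (ι → ℝ)), IsTopologicalBasis B ∧
      ∀ B0 B1 : Set (Set (ι → ℝ)), B0 ∪ B1 = B → Disjoint B0 B1 →
        ¬ (IsTopologicalBasis B0 ∧ IsTopologicalBasis B1) :=
  ⟨H39.Res.KK, H39.Res.mk_KK, H39.Res.BR, H39.Res.basis_BR,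
    fun B0 B1 hu hd h => H39.Res.irres_BR B0 B1 hu hd h.1 h.2⟩

end Pool.Agent.Results.MP_155eb7_gt.PowerCounter
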